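import Pool.Agent.W816.HI.AT

/-!
# The arithmetic of the exponents for two coprime composite moduli
-/

set_option autoImplicit false

namespace Pool.Agent.J6H9.AC

open Finset Pool.Agent.W816.HI.AT

theorem fin_ineq2 (N R D P Q S B g x : ℕ) (hN : 0 < N) (hR : 0 < R)
    (h1 : P * g ≤ N) (h2 : Q * x ≤ R) (h : D * (Q * S + P * B) < P * Q) :
    D * (R * (g * S) + N * (x * B)) < N * R := by
  have A1 : Q * R * S * (P * g) ≤ Q * R * S * N := Nat.mul_le_mul_left _ h1
  have A2 : P * N * B * (Q * x) ≤ P * N * B * R := Nat.mul_le_mul_left _ h2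
  refine Nat.lt_of_mul_lt_mul_left (a := P * Q) ?_
  calc P * Q * (D * (R * (g * S) + N * (x * B)))
      = D * (Q * R * S * (P * g) + P * N * B * (Q * x)) := by ring
    _ ≤ D * (Q * R * S * N + P * N * B * R) := Nat.mul_le_mul_left D (Nat.add_le_add A1 A2)
    _ = N * R * (D * (Q * S + P * B)) := by ring
    _ < N * R * (P * Q) := Nat.mul_lt_mul_of_pos_left h (Nat.mul_pos hN hR)
    _ = P * Q * (N * R) := by ring

theorem arith {N R c F D P Q : ℕ} (hN2 : 2 ≤ N) (hR : 0 < R) (hRN : R.Coprime N)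
    (hP : ∀ l : ℕ, l.Prime → l ∣ N → P ≤ l) (hQ : ∀ l : ℕ, l.Prime → l ∣ R → Q ≤ l)
    (hc : c.Prime) (hcN : N * R ∣ c - 1) (hF : 0 < F) {m n : ℕ} (a : Fin m → ℕ) (a' b : Fin n → ℕ)
    (hmain : D * (Q * (∑ i, a i + ∑ l, a' l) + P * ∑ l, b l) < P * Q) {j s : ℕ} (hj : 0 < j)
    (hjN : j < N) :
    ∃ j' : ℕ, j'.Coprime (N * R) ∧
      D * (∑ i, ∑ e ∈ range F, (j' * (R * (j * a i % N)) * c ^ e) % (N * R) +
        (∑ l, ∑ e ∈ range F, (j' * (R * (j * a' l % N)) * c ^ e) % (N * R) +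
          ∑ l, ∑ e ∈ range F, (j' * (N * (s * b l % R)) * c ^ e) % (N * R))) < F * (N * R) := by
  have hN : 0 < N := by omega
  obtain ⟨u₀, g, hu₀, hg, hu₀j⟩ := single N j hN
  obtain ⟨u₂, d₂, hu₂, hd₂, hu₂s⟩ := single R s hR
  obtain ⟨j', hj1, hj2⟩ := Nat.chineseRemainder hRN.symm u₀ u₂
  have hcN1 : c ≡ 1 [MOD N * R] := ((Nat.modEq_iff_dvd' hc.one_lt.le).2 hcN).symm
  have hcb : ∀ e : ℕ, c ^ e ≡ 1 [MOD N * R] := by
    intro e
    have h := hcN1.pow e
    rwa [one_pow] at h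
  have hcn : ∀ e : ℕ, c ^ e ≡ 1 [MOD N] := fun e => (hcb e).of_mul_right R
  have hcr : ∀ e : ℕ, c ^ e ≡ 1 [MOD R] := fun e => (hcb e).of_mul_left N
  have hPg : P * g ≤ N := by
    rcases (divisor_mod N g P hN hg hP).2 with h | h
    · exfalso
      have h1 : u₀ * j ≡ 0 [MOD N] := by
        have h2 : g ≡ 0 [MOD N] := by
          rw [h]
          exact (Nat.modEq_zero_iff_dvd).2 dvd_rfl
        exact hu₀j.trans h2
      have h3 : N ∣ u₀ * j := (Nat.modEq_zero_iff_dvd).1 h1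
      have h4 : N ∣ j := (Nat.Coprime.symm hu₀).dvd_of_dvd_mul_left h3
      exact absurd (Nat.le_of_dvd hj h4) (by omega)
    · exact h
  refine ⟨j', ?_, ?_⟩
  · exact Nat.Coprime.mul_right (coprime_of_modEq hj1 hu₀) (coprime_of_modEq hj2 hu₂)
  · have t0 : ∀ y e, (j' * (R * (j * y % N)) * c ^ e) % (N * R) = R * ((g * y) % N) := by
      intro y e
      have h1 : j' * (R * (j * y % N)) * c ^ e = R * (j' * (j * y % N) * c ^ e) := by
        ring
      have h2 : N * R = R * N := by ring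
      rw [h1, h2, Nat.mul_mod_mul_left]
      congr 1
      have h3 : j' * (j * y % N) * c ^ e ≡ g * y [MOD N] := by
        calc j' * (j * y % N) * c ^ e ≡ u₀ * (j * y) * 1 [MOD N] :=
              (hj1.mul (Nat.mod_modEq _ _)).mul (hcn e)
          _ = (u₀ * j) * y := by ring
          _ ≡ g * y [MOD N] := hu₀j.mul_right _
      exact h3
    have t2 : ∀ y e, (j' * (N * (s * y % R)) * c ^ e) % (N * R) ≤ N * ((d₂ % R) * y) := by
      intro y e
      have h1 : j' * (N * (s * y % R)) * c ^ e = N * (j' * (s * y % R) * c ^ e) := by ring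
      rw [h1, Nat.mul_mod_mul_left]
      apply Nat.mul_le_mul_left
      have h3 : j' * (s * y % R) * c ^ e ≡ (d₂ % R) * y [MOD R] := by
        calc j' * (s * y % R) * c ^ e ≡ u₂ * (s * y) * 1 [MOD R] :=
              (hj2.mul (Nat.mod_modEq _ _)).mul (hcr e)
          _ = (u₂ * s) * y := by ring
          _ ≡ d₂ * y [MOD R] := hu₂s.mul_right _
          _ ≡ (d₂ % R) * y [MOD R] := (Nat.mod_modEq _ _).symm.mul_right _
      rw [h3]
      exact Nat.mod_le _ _
    have e1 : ∀ (k : ℕ) (y : Fin k → ℕ), ∑ i, ∑ e ∈ range F, (j' * (R * (j * y i % N)) * c ^ e) % (N * R)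
        ≤ F * (R * (g * ∑ i, y i)) := by
      intro k y
      rw [Finset.mul_sum, Finset.mul_sum, Finset.mul_sum]
      refine Finset.sum_le_sum fun i _ => ?_
      simp only [t0, Finset.sum_const, Finset.card_range, smul_eq_mul]
      exact Nat.mul_le_mul_left _ (Nat.mul_le_mul_left _ (Nat.mod_le _ _))
    have e2 : ∑ l, ∑ e ∈ range F, (j' * (N * (s * b l % R)) * c ^ e) % (N * R)
        ≤ F * (N * ((d₂ % R) * ∑ l, b l)) := by
      rw [Finset.mul_sum, Finset.mul_sum, Finset.mul_sum]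
      refine Finset.sum_le_sum fun i _ => ?_
      calc ∑ e ∈ range F, (j' * (N * (s * b i % R)) * c ^ e) % (N * R)
          ≤ ∑ _e ∈ range F, N * ((d₂ % R) * b i) := Finset.sum_le_sum fun e _ => t2 (b i) e
        _ = _ := by rw [Finset.sum_const, Finset.card_range, smul_eq_mul]
    have e3 := fin_ineq2 N R D P Q (∑ i, a i + ∑ l, a' l) (∑ l, b l) g (d₂ % R) hN hR hPg
      (divisor_mod R d₂ Q hR hd₂ hQ).1 hmain
    calc D * (∑ i, ∑ e ∈ range F, (j' * (R * (j * a i % N)) * c ^ e) % (N * R) +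
          (∑ l, ∑ e ∈ range F, (j' * (R * (j * a' l % N)) * c ^ e) % (N * R) +
            ∑ l, ∑ e ∈ range F, (j' * (N * (s * b l % R)) * c ^ e) % (N * R)))
        ≤ D * (F * (R * (g * ∑ i, a i)) + (F * (R * (g * ∑ l, a' l)) +
            F * (N * ((d₂ % R) * ∑ l, b l)))) :=
          Nat.mul_le_mul_left _ (Nat.add_le_add (e1 m a) (Nat.add_le_add (e1 n a') e2))
      _ = F * (D * (R * (g * (∑ i, a i + ∑ l, a' l)) + N * ((d₂ % R) * ∑ l, b l))) := by ring
      _ < F * (N * R) := Nat.mul_lt_mul_of_pos_left e3 hF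

/-- the exponents are prime to the moduli -/
theorem cop_of_lt {N P y : ℕ} (hP : ∀ l : ℕ, l.Prime → l ∣ N → P ≤ l) (hy : 0 < y) (hyP : y < P) :
    y.Coprime N := by
  by_contra h
  obtain ⟨l, hl, h1, h2⟩ := Nat.Prime.not_coprime_iff_dvd.1 h
  have h3 := hP l hl h2
  have h4 := Nat.le_of_dvd hy h1
  omega

end Pool.Agent.J6H9.AC
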