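import Pool.Agent.J6H9.AC.Pts2
import Pool.Agent.J6H9.AC.Ari
import Pool.Agent.W551.HD.GN
import Pool.Agent.W108.HD.ONE
import Pool.Agent.W340.HD.IN
import Pool.Agent.W528.HC.MU
import Pool.Agent.W924.HC.PR

/-!
# Superelliptic Jacobians over the function fields of cyclic coverings of affine space
-/

set_option autoImplicit false

namespace Pool.Agent.J6H9.AC

open Finset Polynomial Pool.Agent.W528.HA Pool.Agent.W528.HC Pool.Agent.W528.HD

theorem fin_affine {N R c D P Q d : ℕ} (hN : 2 ≤ N) (hR : 0 < R) (hRN : R.Coprime N)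
    (hP : ∀ l : ℕ, l.Prime → l ∣ N → P ≤ l) (hQ : ∀ l : ℕ, l.Prime → l ∣ R → Q ≤ l)
    [Fact c.Prime] (hc : N * R ∣ c - 1)
    (κ : Type) [Field κ] [Fintype κ] [CharP κ c]
    {z : κ} (hz : IsPrimitiveRoot z (N * R)) {E : Type} [Field E] [CharZero E] [IsAlgClosed E]
    {μ : E} (hμ : IsPrimitiveRoot μ (N * R)) {m n : ℕ} (hD : 1 ≤ D) (f : Fin m → κ[X])
    (γ : Fin m → Fin d → κ)
    (hf : ∀ i, (f i).natDegree ≤ D) (h : Fin n → κ[X]) (η : Fin n → Fin d → κ)
    (hh : ∀ l, (h l).natDegree ≤ D) (a : Fin m → ℕ) (a' b : Fin n → ℕ) (ha : ∀ i, 0 < a i)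
    (hab : D * (Q * (∑ i, a i + ∑ l, a' l) + P * ∑ l, b l) < P * Q)
    (A : ℕ → ℕ → E →₀ ℤ)
    (hA : ∀ j s, 0 < j → j < N → s < R → ∀ (L : Type) [Field L] [Fintype L] [Algebra κ L],
      (A j s).sum (fun x w => (w : E) * x ^ Module.finrank κ L) =
        tSum L E N R (fun i => val ((f i).map (algebraMap κ L)) (fun o => algebraMap κ L (γ i o))) a
          (fun l => val ((h l).map (algebraMap κ L)) (fun o => algebraMap κ L (η l o))) a' b
          (algebraMap κ L z) μ j s) :
    (∀ (L : Type) [Field L] [Fintype L] [Algebra κ L],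
      ∑ j ∈ Ico 1 N, ∑ s ∈ range R, (A j s).sum (fun x w => (w : E) * x ^ Module.finrank κ L)
        = (tPts2 L N R
            (fun i => val ((f i).map (algebraMap κ L)) (fun o => algebraMap κ L (γ i o))) a
            (fun l => val ((h l).map (algebraMap κ L)) (fun o => algebraMap κ L (η l o))) a' b : E)
          - (Fintype.card L : E) * (bPts L R
            (fun l => val ((h l).map (algebraMap κ L)) (fun o => algebraMap κ L (η l o))) b : E)) ∧
    ∀ j s, 0 < j → j < N → s < R → ∀ (x : E) (M : ℕ), 0 < M →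
      x ^ M = ((Fintype.card κ : E) ^ (d + 1)) ^ M → A j s x = 0 := by
  classical
  have hPR : PR := Pool.Agent.W924.HC.PR.main
  have hMU : MU := mu_main
  have hGN : GN := Pool.Agent.W551.HD.GN.main
  have hONE : ONE := Pool.Agent.W108.HD.ONE.main Pool.Agent.W551.HD.GN.main
    Pool.Agent.W340.HD.IN.main Pool.Agent.W135.HB.SA.main
  have hcp : c.Prime := Fact.out
  obtain ⟨F, hF0, hF⟩ := FiniteField.card κ c
  have hF0' : 0 < (F : ℕ) := F.2
  have hN1 : 0 < N := by omega
  have hN2 : 2 ≤ N * R := le_trans hN (Nat.le_mul_of_pos_right N hR)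
  have hsum0 : Q * (∑ i, a i + ∑ l, a' l) + P * ∑ l, b l < P * Q :=
    lt_of_le_of_lt (Nat.le_mul_of_pos_left _ (by omega)) hab
  have hPsum : ∑ i, a i + ∑ l, a' l < P := by
    have h1 : Q * (∑ i, a i + ∑ l, a' l) < Q * P := by
      rw [mul_comm Q P]
      omega
    exact Nat.lt_of_mul_lt_mul_left h1
  have hQsum : ∑ l, b l < Q := by
    have h1 : P * ∑ l, b l < P * Q := by omega
    exact Nat.lt_of_mul_lt_mul_left h1
  refine ⟨?_, ?_⟩
  · intro L _ _ _
    have hzL : IsPrimitiveRoot (algebraMap κ L z) (N * R) :=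
      hz.map_of_injective (algebraMap κ L).injective
    have hap : ∀ i, (a i).Coprime N := by
      intro i
      have h1 := single_le_sum (f := a) (fun _ _ => Nat.zero_le _) (mem_univ i)
      exact cop_of_lt hP (ha i) (by omega)
    have hap' : ∀ l, a' l = 0 ∨ (a' l).Coprime N := by
      intro l
      rcases Nat.eq_zero_or_pos (a' l) with h0 | h0
      · exact Or.inl h0
      · have h1 := single_le_sum (f := a') (fun _ _ => Nat.zero_le _) (mem_univ l)
        exact Or.inr (cop_of_lt hP h0 (by omega))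
    have hbr : ∀ l, b l = 0 ∨ (b l).Coprime R := by
      intro l
      rcases Nat.eq_zero_or_pos (b l) with h0 | h0
      · exact Or.inl h0
      · have h1 := single_le_sum (f := b) (fun _ _ => Nat.zero_le _) (mem_univ l)
        exact Or.inr (cop_of_lt hQ h0 (by omega))
    rw [← pts_main2 hPR hMU L N R (algebraMap κ L z) hN hR hzL E μ hμ m n _ _ a _ a' b hap hap' hbr]
    refine sum_congr rfl fun j hj => sum_congr rfl fun s hs => ?_
    rw [mem_Ico] at hj
    exact hA j s hj.1 hj.2 (mem_range.mp hs) L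
  · intro j s hj0 hjN hs x M hM hx
    obtain ⟨j', hj', hsum⟩ := arith (s := s) hN hR hRN hP hQ hcp hc hF0' a a' b hab hj0 hjN
    have hcard : Fintype.card (Option (Fin d)) = d + 1 := by simp
    refine m_nonvanish hGN hONE hN2 κ hF hz hμ hD (σ := Option (Fin d))
      (Sum.elim (fun i o => o.elim 1 fun j => -(γ i j)) (Sum.elim (fun l o => o.elim 0 (η l))
        (fun l o => o.elim 0 (η l))))
      (Sum.elim (fun i => -(f i)) (Sum.elim h h)) ?_
      (Sum.elim (fun i => R * (j * a i % N)) (Sum.elim (fun l => R * (j * a' l % N))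
        (fun l => N * (s * b l % R)))) ?_ hj'
      ?_ (A j s) ?_ x M hM (by rw [hcard]; exact hx)
    · rintro (i | l | l)
      · rw [Sum.elim_inl, natDegree_neg]
        exact hf i
      · exact hh l
      · exact hh l
    · rintro (i | l | l)
      · rw [Sum.elim_inl, mul_comm N R]
        exact Nat.mul_lt_mul_of_pos_left (Nat.mod_lt _ hN1) hR
      · rw [Sum.elim_inr, Sum.elim_inl, mul_comm N R]
        exact Nat.mul_lt_mul_of_pos_left (Nat.mod_lt _ hN1) hR
      · exact Nat.mul_lt_mul_of_pos_left (Nat.mod_lt _ hR) hN1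
    · rw [Fintype.sum_sum_type, Fintype.sum_sum_type]
      simp only [Sum.elim_inl, Sum.elim_inr]
      exact hsum
    · intro L _ _ _
      rw [hA j s hj0 hjN hs L, tSum_eq]
      congr 1
      · funext i o
        rcases i with i | l | l <;> rcases o with _ | o <;> simp
      · funext i
        rcases i with i | l | l
        · simp
        · simp
        · simp

end Pool.Agent.J6H9.AC
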