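import Pool.Agent.W528.HD.Stm
import Pool.Agent.W125.HC.PC
import Pool.Agent.J6H9.AC.Est

/-!
# The number of the points of the coverings of affine space

Adapted from the starting file `Pool.Agent.W177.HD.PF` (base of dimension one).
-/

set_option autoImplicit false

namespace Pool.Agent.J6H9.AC

open Finset Polynomial Pool.Agent.W528.HA Pool.Agent.W528.HC Pool.Agent.W125.HC.PC

/-- The function `g(t₀) + c₁ t₁ + ... + c_d t_d` on the affine space with the coordinates
`t₀, ..., t_d`. -/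
noncomputable def val {L : Type} [Field L] {d : ℕ} (g : L[X]) (c : Fin d → L)
    (t : Fin (d + 1) → L) : L := g.eval (t 0) + ∑ j : Fin d, c j * t j.succ

/-- The sum over `(x, t)` of the value at
`∏ (x - f_i(t)) ^ (r (j a_i mod p)) * ∏ h_l(t) ^ (p (s b_l mod r))` of the character of order
`p r` of `L` belonging to `z ↦ μ`. -/
noncomputable def cSum (L : Type) [Field L] [Fintype L] (R : Type) [CommRing R] (p r : ℕ)
    {T : Type} [Fintype T] {m n : ℕ} (f : Fin m → T → L) (a : Fin m → ℕ) (h : Fin n → T → L)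
    (b : Fin n → ℕ) (z : L) (μ : R) (j s : ℕ) : R :=
  ∑ x : L, ∑ t : T, kv (p * r) z μ
    (((∏ i, (x - f i t) ^ (r * (j * a i % p))) * ∏ l, (h l t) ^ (p * (s * b l % r)))
      ^ ((Fintype.card L - 1) / (p * r)))

/-- The number of the points `(t, u)` with `u ^ r = ∏ h_l(t) ^ b_l`. -/
noncomputable def bPts (L : Type) [Field L] (r : ℕ) {T : Type} {n : ℕ} (h : Fin n → T → L)
    (b : Fin n → ℕ) : ℕ :=
  Set.ncard {v : T × L | v.2 ^ r = ∏ l, (h l v.1) ^ b l}

/-- The number of the points `((x, t), (u, y))` with `u ^ r = ∏ h_l(t) ^ b_l` and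
`y ^ p = ∏ (x - f_i(t)) ^ a_i`. -/
noncomputable def tPts (L : Type) [Field L] (p r : ℕ) {T : Type} {m n : ℕ} (f : Fin m → T → L)
    (a : Fin m → ℕ) (h : Fin n → T → L) (b : Fin n → ℕ) : ℕ :=
  Set.ncard {v : (L × T) × L × L | v.2.1 ^ r = ∏ l, (h l v.1.2) ^ b l ∧
    v.2.2 ^ p = ∏ i, (v.1.1 - f i v.1.2) ^ a i}

section

variable {L : Type} [Field L] [Fintype L] {T : Type} [Fintype T]

theorem bPts_eq [DecidableEq L] {r n : ℕ} (γ : Fin n → T → L) (b : Fin n → ℕ) {E : Type} [Field E] :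
    ((bPts L r γ b : ℕ) : E) = ∑ t : T,
      ((Set.ncard {u : L | u ^ r = ∏ l, (γ l t) ^ b l} : ℕ) : E) := by
  classical
  unfold bPts
  have h : {v : T × L | v.2 ^ r = ∏ l, (γ l v.1) ^ b l} =
      ((univ.filter (fun v : T × L => v.2 ^ r = ∏ l, (γ l v.1) ^ b l) : Finset (T × L)) :
        Set (T × L)) := by
    ext y; simp
  rw [h, Set.ncard_coe_finset, card_filter, Fintype.sum_prod_type]
  push_cast
  refine sum_congr rfl fun t _ => ?_
  rw [ncard_eq]

theorem tPts_eq [DecidableEq L] {p r m n : ℕ} (α : Fin m → T → L) (a : Fin m → ℕ) (γ : Fin n → T → L)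
    (b : Fin n → ℕ) {E : Type} [Field E] :
    ((tPts L p r α a γ b : ℕ) : E) = ∑ x : L, ∑ t : T,
      ((Set.ncard {y : L | y ^ p = ∏ i, (x - α i t) ^ a i} : ℕ) : E) *
      ((Set.ncard {u : L | u ^ r = ∏ l, (γ l t) ^ b l} : ℕ) : E) := by
  classical
  unfold tPts
  have h : {v : (L × T) × L × L | v.2.1 ^ r = ∏ l, (γ l v.1.2) ^ b l ∧
      v.2.2 ^ p = ∏ i, (v.1.1 - α i v.1.2) ^ a i} =
      ((univ.filter (fun v : (L × T) × L × L => v.2.1 ^ r = ∏ l, (γ l v.1.2) ^ b l ∧
        v.2.2 ^ p = ∏ i, (v.1.1 - α i v.1.2) ^ a i) : Finset ((L × T) × L × L)) :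
        Set ((L × T) × L × L)) := by
    ext y; simp
  rw [h, Set.ncard_coe_finset, card_filter, Fintype.sum_prod_type, Fintype.sum_prod_type]
  push_cast
  refine sum_congr rfl fun x _ => sum_congr rfl fun t _ => ?_
  rw [Fintype.sum_prod_type, ncard_eq, ncard_eq, sum_mul_sum, sum_comm]
  refine sum_congr rfl fun y _ => sum_congr rfl fun u _ => ?_
  by_cases h1 : u ^ r = ∏ l, (γ l t) ^ b l
  · by_cases h2 : y ^ p = ∏ i, (x - α i t) ^ a i
    · simp [h1, h2]
    · simp [h1, h2]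
  · simp [h1]

theorem swap4' {E : Type} [Field E] (J S : Finset ℕ) (f : L → T → ℕ → E) (g : T → ℕ → E) :
    ∑ j ∈ J, ∑ s ∈ S, ∑ x : L, ∑ t : T, f x t j * g t s =
      ∑ x : L, ∑ t : T, (∑ j ∈ J, f x t j) * ∑ s ∈ S, g t s := by
  have h1 : ∀ j, ∑ s ∈ S, ∑ x : L, ∑ t : T, f x t j * g t s =
      ∑ x : L, ∑ t : T, ∑ s ∈ S, f x t j * g t s := by
    intro j
    rw [sum_comm]
    exact sum_congr rfl fun x _ => sum_comm
  simp only [h1, sum_mul_sum]
  rw [sum_comm]
  exact sum_congr rfl fun x _ => sum_comm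

end

theorem pts_main (hPR : PR) (hMU : MU) (L : Type) [Field L] [Fintype L] (p r : ℕ) (z : L)
    (hp : p.Prime) (hr : r.Prime) (hz : IsPrimitiveRoot z (p * r)) (E : Type) [Field E]
    [CharZero E] (μ : E) (hμ : IsPrimitiveRoot μ (p * r)) (m n : ℕ) (T : Type) [Fintype T]
    (α : Fin m → T → L) (a : Fin m → ℕ) (γ : Fin n → T → L) (b : Fin n → ℕ)
    (ha : ∀ i, 0 < a i ∧ a i < p) (hb : ∀ l, 0 < b l ∧ b l < r) :
    ∑ j ∈ Ico 1 p, ∑ s ∈ range r, cSum L E p r α a γ b z μ j s
      = (tPts L p r α a γ b : E) - (Fintype.card L : E) * (bPts L r γ b : E) := by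
  classical
  have hN : 0 < p * r := Nat.mul_pos hp.pos hr.pos
  have hN2 : 2 ≤ p * r := by
    calc 2 ≤ p := hp.two_le
      _ = p * 1 := (mul_one p).symm
      _ ≤ p * r := Nat.mul_le_mul_left p hr.pos
  have hmu := hMU L (p * r) z hN2 hz E μ hμ.pow_eq_one
  have hz' : IsPrimitiveRoot z (r * p) := by
    rw [mul_comm]
    exact hz
  -- the functions
  obtain ⟨F, hF⟩ : ∃ F : L → T → L, F = fun x t => ∏ i, (x - α i t) ^ a i := ⟨_, rfl⟩
  obtain ⟨G, hG⟩ : ∃ G : T → L, G = fun t => ∏ l, (γ l t) ^ b l := ⟨_, rfl⟩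
  have h0 : ∀ j ∈ Ico 1 p, ∀ (x : L) (t : T), (∏ i, (x - α i t) ^ (r * (j * a i % p))) ^
      ((Fintype.card L - 1) / (p * r)) = (F x t ^ (r * j)) ^
      ((Fintype.card L - 1) / (p * r)) := by
    intro j hj x t
    rw [mem_Ico] at hj
    rw [hF]
    simp only
    rw [← prod_pow, ← prod_pow, ← prod_pow]
    refine prod_congr rfl fun i _ => ?_
    have hnd : ¬ p ∣ j * a i := by
      intro hd
      rcases (Nat.Prime.dvd_mul hp).1 hd with h | h
      · have := Nat.le_of_dvd (by omega) h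
        omega
      · have := Nat.le_of_dvd (ha i).1 h
        have := (ha i).2
        omega
    rw [pow_mod hp.pos hr.pos hz hnd, ← pow_mul (x - α i t) (a i)]
    congr 2
    ring
  have h0' : ∀ s ∈ range r, ∀ t : T, (∏ l, (γ l t) ^ (p * (s * b l % r))) ^
      ((Fintype.card L - 1) / (p * r)) = (G t ^ (p * s)) ^
      ((Fintype.card L - 1) / (p * r)) := by
    intro s hs t
    rw [mem_range] at hs
    rcases Nat.eq_zero_or_pos s with hs0 | hs0
    · subst hs0
      simp
    · rw [hG]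
      simp only
      rw [← prod_pow, ← prod_pow, ← prod_pow]
      refine prod_congr rfl fun l _ => ?_
      have hnd : ¬ r ∣ s * b l := by
        intro hd
        rcases (Nat.Prime.dvd_mul hr).1 hd with h | h
        · have := Nat.le_of_dvd hs0 h
          omega
        · have := Nat.le_of_dvd (hb l).1 h
          have := (hb l).2
          omega
      have h1 := pow_mod hr.pos hp.pos hz' hnd (γ l t)
      rw [mul_comm r p] at h1
      rw [h1, ← pow_mul (γ l t) (b l)]
      congr 2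
      ring
  have h1 : ∀ j ∈ Ico 1 p, ∀ s ∈ range r, ∀ (x : L) (t : T), kv (p * r) z μ
      (((∏ i, (x - α i t) ^ (r * (j * a i % p))) * ∏ l, (γ l t) ^ (p * (s * b l % r)))
        ^ ((Fintype.card L - 1) / (p * r))) =
      kv (p * r) z μ ((F x t ^ (r * j)) ^ ((Fintype.card L - 1) / (p * r))) *
        kv (p * r) z μ ((G t ^ (p * s)) ^ ((Fintype.card L - 1) / (p * r))) := by
    intro j hj s hs x t
    rw [hmu, h0 j hj x t, h0' s hs t]
  have h2 : ∀ v : L, ∑ j ∈ Ico 1 p,
      kv (p * r) z μ ((v ^ (r * j)) ^ ((Fintype.card L - 1) / (p * r))) =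
      ((Set.ncard {y : L | y ^ p = v} : ℕ) : E) - 1 := by
    intro v
    have := hPR L (p * r) p r z rfl hz hp.pos hr.pos E μ hμ v
    rw [this]; ring
  have h3 : ∀ v : L, ∑ s ∈ range r,
      kv (p * r) z μ ((v ^ (p * s)) ^ ((Fintype.card L - 1) / (p * r))) =
      ((Set.ncard {y : L | y ^ r = v} : ℕ) : E) := by
    intro v
    have := hPR L (p * r) r p z (mul_comm p r) hz hr.pos hp.pos E μ hμ v
    rw [this, range_eq_Ico, sum_eq_sum_Ico_succ_bot hr.pos]
    congr 1
    rw [mul_zero, pow_zero, one_pow, kv_one hN hz]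
  unfold cSum
  obtain ⟨A, hA⟩ : ∃ A : L → T → ℕ → E, A = fun x t j =>
      kv (p * r) z μ ((F x t ^ (r * j)) ^ ((Fintype.card L - 1) / (p * r))) := ⟨_, rfl⟩
  obtain ⟨B, hB⟩ : ∃ B : T → ℕ → E, B = fun t s =>
      kv (p * r) z μ ((G t ^ (p * s)) ^ ((Fintype.card L - 1) / (p * r))) := ⟨_, rfl⟩
  have h2' : ∀ (x : L) (t : T), (∑ j ∈ Ico 1 p, A x t j) =
      ((Set.ncard {y : L | y ^ p = F x t} : ℕ) : E) - 1 := by
    intro x t
    rw [hA]
    exact h2 (F x t)
  have h3' : ∀ t : T, (∑ s ∈ range r, B t s) =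
      ((Set.ncard {y : L | y ^ r = G t} : ℕ) : E) := by
    intro t
    rw [hB]
    exact h3 (G t)
  have e1 : (∑ j ∈ Ico 1 p, ∑ s ∈ range r, ∑ x : L, ∑ t : T, kv (p * r) z μ
      (((∏ i, (x - α i t) ^ (r * (j * a i % p))) * ∏ l, (γ l t) ^ (p * (s * b l % r)))
        ^ ((Fintype.card L - 1) / (p * r)))) =
      ∑ j ∈ Ico 1 p, ∑ s ∈ range r, ∑ x : L, ∑ t : T, A x t j * B t s := by
    rw [hA, hB]
    exact sum_congr rfl fun j hj => sum_congr rfl fun s hs => sum_congr rfl fun x _ =>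
          sum_congr rfl fun t _ => h1 j hj s hs x t
  have e3 : (∑ x : L, ∑ t : T, (∑ j ∈ Ico 1 p, A x t j) * (∑ s ∈ range r, B t s)) =
      ∑ x : L, ∑ t : T, (((Set.ncard {y : L | y ^ p = F x t} : ℕ) : E) *
        ((Set.ncard {u : L | u ^ r = G t} : ℕ) : E) -
          ((Set.ncard {u : L | u ^ r = G t} : ℕ) : E)) :=
    sum_congr rfl fun x _ => sum_congr rfl fun t _ => by rw [h2', h3']; ring
  refine e1.trans ((swap4' (Ico 1 p) (range r) A B).trans (e3.trans ?_))
  rw [tPts_eq, bPts_eq, hF, hG]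
  simp only [sum_sub_distrib, sum_const, card_univ, nsmul_eq_mul]

/-- the coordinates of the base, and `x` -/
noncomputable def splitEquiv (L : Type) (d : ℕ) :
    ((Option (Fin d) → L) × L) ≃ L × (Fin (d + 1) → L) where
  toFun v := (v.1 none, Fin.cons v.2 fun j => v.1 (some j))
  invFun w := (fun o => o.elim w.1 fun j => w.2 j.succ, w.2 0)
  left_inv v := by
    refine Prod.ext ?_ ?_
    · funext o
      cases o with
      | none => rfl
      | some j => simp
    · simp
  right_inv w := by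
    refine Prod.ext rfl ?_
    funext j
    refine Fin.cases ?_ (fun i => ?_) j
    · simp
    · simp

theorem cSum_eq {L : Type} [Field L] [Fintype L] {R : Type} [CommRing R] (p r : ℕ) {d m n : ℕ}
    (f : Fin m → L[X]) (γ : Fin m → Fin d → L) (a : Fin m → ℕ) (h : Fin n → L[X])
    (η : Fin n → Fin d → L) (b : Fin n → ℕ) (z : L) (μ : R) (j s : ℕ) :
    cSum L R p r (fun i => val (f i) (γ i)) a (fun l => val (h l) (η l)) b z μ j s
      = mSum L R (σ := Option (Fin d)) (p * r)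
        (Sum.elim (fun i o => o.elim 1 fun j => -(γ i j)) (fun l o => o.elim 0 (η l)))
        (Sum.elim (fun i => -(f i)) h)
        (Sum.elim (fun i => r * (j * a i % p)) (fun l => p * (s * b l % r))) z μ := by
  classical
  unfold cSum mSum
  rw [← Fintype.sum_prod_type' (f := fun (x : L) (t : Fin (d + 1) → L) => kv (p * r) z μ
    (((∏ i, (x - val (f i) (γ i) t) ^ (r * (j * a i % p))) * ∏ l, (val (h l) (η l) t) ^
      (p * (s * b l % r))) ^ ((Fintype.card L - 1) / (p * r))))]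
  rw [← Fintype.sum_prod_type' (f := fun (v : Option (Fin d) → L) (t : L) => kv (p * r) z μ
    ((∏ i, (frm ((Sum.elim (fun i o => o.elim 1 fun j => -(γ i j)) (fun l o => o.elim 0 (η l)) :
      Fin m ⊕ Fin n → Option (Fin d) → L) i) ((Sum.elim (fun i => -(f i)) h :
        Fin m ⊕ Fin n → L[X]) i) v t) ^ (Sum.elim (fun i => r * (j * a i % p))
          (fun l => p * (s * b l % r)) : Fin m ⊕ Fin n → ℕ) i) ^ ((Fintype.card L - 1) / (p * r))))]
  refine (Fintype.sum_equiv (splitEquiv L d) _ _ ?_).symm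
  rintro ⟨v, t⟩
  simp only [splitEquiv, Equiv.coe_fn_mk]
  congr 2
  rw [Fintype.prod_sum_type]
  congr 1
  · refine prod_congr rfl fun i _ => ?_
    simp only [Sum.elim_inl]
    congr 1
    rw [frm, val, Fintype.sum_option]
    simp only [Option.elim_none, Option.elim_some, one_mul, eval_neg, Fin.cons_zero, Fin.cons_succ,
      neg_mul, sum_neg_distrib]
    ring
  · refine prod_congr rfl fun i _ => ?_
    simp only [Sum.elim_inr]
    congr 1
    rw [frm, val, Fintype.sum_option]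
    simp only [Option.elim_none, Option.elim_some, zero_mul, zero_add, Fin.cons_zero, Fin.cons_succ]
    ring

end Pool.Agent.J6H9.AC
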